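import Pool.Agent.Helper12.EK.Defs
import Pool.Agent.Helper6.MC.Fam

/-!
K11: exponentially many automorphisms give families (over K8, K9, K10)
-/

set_option autoImplicit false
set_option linter.unusedSectionVars false

namespace Pool.Agent.Helper40.EK

open Pool.Agent.Helper6.MC Pool.Agent.Helper12.EK

/-- K8 -/
def StmtStep : Prop := ∀ (M Col : Type) [Fintype M] [DecidableEq M] [DecidableEq Col]
  (c : M → M → Col), Flip c → ∀ (A₀ : Finset M) (s s' q L M₀ D : ℕ), 1 ≤ q →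
    (∀ x, (Orb c A₀ x).card ≤ s) →
    s * (q - 1) ^ (L + 1) * q ≤ q ^ (L + 1) → (q - 1) ^ (M₀ + 1) * q ≤ q ^ (M₀ + 1) →
    ((M₀ + 1) * (2 * L + 1) ^ 2) ^ (Nat.log 2 M₀ + 1) ≤ s' →
    M₀ * (D + 16 * L ^ 3 + 4 * L + 1) ≤ s' → (∀ t, 1 ≤ t → t ≤ M₀ → ¬ Fam c t D) →
    ∃ A, A₀ ⊆ A ∧ q * A.card ≤ q * A₀.card + 4 * Fintype.card M ∧ ∀ x, (Orb c A x).card ≤ s'

/-- K9 -/
def StmtNum : Prop := ∀ (a b : ℕ), ∃ j₀, 1 ≤ j₀ ∧ ∀ j, j₀ ≤ j →
    2 ^ (40 * (j + 1) ^ 2) * (2 ^ j - 1) ^ (8 ^ j + 1) * 2 ^ j ≤ (2 ^ j) ^ (8 ^ j + 1) ∧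
    (2 ^ j - 1) ^ (4 ^ j + 1) * 2 ^ j ≤ (2 ^ j) ^ (4 ^ j + 1) ∧
    ((4 ^ j + 1) * (2 * 8 ^ j + 1) ^ 2) ^ (Nat.log 2 (4 ^ j) + 1) ≤ 2 ^ (40 * j ^ 2) ∧
    4 ^ j * ((a * 4 ^ j + b) + 16 * (8 ^ j) ^ 3 + 4 * 8 ^ j + 1) ≤ 2 ^ (40 * j ^ 2)

/-- K10 -/
def StmtCard : Prop := ∀ (M Col : Type) [Fintype M] [DecidableEq M] [DecidableEq Col]
  (c : M → M → Col) (A B : Finset M) (s : ℕ), (∀ x, (Orb c A x).card ≤ s) →
    Nat.card {g : Equiv.Perm M // St c A g} ≤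
      s ^ B.card * Nat.card {g : Equiv.Perm M // St c (A ∪ B) g}

/-- fewer blocks -/
lemma fam_fewer {M Col : Type} {c : M → M → Col} {t q q' : ℕ} (h : Fam c t q) (hq : q' ≤ q) :
    Fam c t q' := by
  obtain ⟨u, hu, h1, h2, h3⟩ := h
  refine ⟨fun p => u (Fin.castLE hq p.1, p.2), ?_, ?_, fun i i' a b => h2 _ _ a b, ?_⟩
  · rintro ⟨i, a⟩ ⟨i', a'⟩ h
    have h4 := hu h
    rw [Prod.mk.injEq] at h4
    exact Prod.ext (Fin.castLE_injective hq h4.1) h4.2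
  · intro i i' a w hw
    by_cases h4 : ∃ p, u p = w
    · obtain ⟨⟨j, b⟩, rfl⟩ := h4
      have h5 : ∀ i : Fin q', Fin.castLE hq i ≠ j := by
        rintro i rfl
        exact hw (i, b) rfl
      exact h3 _ _ _ _ a b (h5 i) (h5 i')
    · push Not at h4
      exact h1 _ _ a w h4
  · intro i j i' j' a b h4 h5
    exact h3 _ _ _ _ a b (fun h => h4 (Fin.castLE_injective hq h))
      (fun h => h5 (Fin.castLE_injective hq h))

/-- square roots -/
lemma root {x y e : ℕ} (j : ℕ) (h : x ^ 2 ^ (j + 1) ≤ 2 ^ (2 * e) * y ^ 2 ^ (j + 1)) :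
    x ^ 2 ^ j ≤ 2 ^ e * y ^ 2 ^ j := by
  have e1 : x ^ 2 ^ (j + 1) = (x ^ 2 ^ j) ^ 2 := by rw [← pow_mul, ← pow_succ]
  have e2 : 2 ^ (2 * e) * y ^ 2 ^ (j + 1) = (2 ^ e * y ^ 2 ^ j) ^ 2 := by
    rw [mul_pow, ← pow_mul, ← pow_mul, ← pow_succ, mul_comm e 2]
  rw [e1, e2] at h
  exact (Nat.pow_le_pow_iff_left (by norm_num)).1 h

theorem key_of (hStep : StmtStep) (hNum : StmtNum) (hCard : StmtCard) (a b : ℕ) :
    ∃ K : ℕ, ∀ (M Col : Type) [Fintype M] [DecidableEq M] [DecidableEq Col]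
    (c : M → M → Col), Flip c → (∀ t, 1 ≤ t → ¬ Fam c t (a * t + b)) →
    Nat.card {g : Equiv.Perm M // IsAut c g} ≤ K ^ Fintype.card M := by
  obtain ⟨j₀, hj1, hnum⟩ := hNum a b
  obtain ⟨E, hE⟩ : ∃ E : ℕ → ℕ, E = fun j => 2 * (j + 1) ^ 2 + 4 * (j + 1) + 6 := ⟨_, rfl⟩
  have hErec : ∀ j, 2 * (E j) = E (j + 1) + 2 * (j + 1) ^ 2 := by
    intro j
    rw [hE]
    ring
  refine ⟨2 ^ (320 * E j₀ + 40 * j₀ ^ 2 * 2 ^ j₀), ?_⟩
  intro M Col _ _ _ c hf hfam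
  obtain ⟨n, hn⟩ : ∃ n, n = Fintype.card M := ⟨_, rfl⟩
  rw [← hn]
  obtain ⟨G, hG⟩ : ∃ G, G = Nat.card {g : Equiv.Perm M // IsAut c g} := ⟨_, rfl⟩
  rw [← hG]
  have hG1 : 1 ≤ G := by
    rw [hG]
    have : Nonempty {g : Equiv.Perm M // IsAut c g} := ⟨⟨Equiv.refl M, fun _ _ => rfl⟩⟩
    exact Nat.card_pos
  obtain ⟨H, hH⟩ : ∃ H : Finset M → ℕ, H = fun F => Nat.card {g : Equiv.Perm M // St c F g} :=
    ⟨_, rfl⟩
  have hH0 : H ∅ = G := by
    rw [hH, hG]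
    exact Nat.card_congr (Equiv.subtypeEquivRight fun g => by
      unfold St
      simp)
  have hcard : ∀ (A B : Finset M) (s : ℕ), (∀ x, (Orb c A x).card ≤ s) →
      H A ≤ s ^ B.card * H (A ∪ B) := by
    intro A B s hs
    rw [hH]
    exact hCard M Col c A B s hs
  -- the induction
  have hind : ∀ d j, j + d = j₀ + n + 1 → j₀ ≤ j → ∃ A F : Finset M, A ⊆ F ∧
      2 ^ j * A.card ≤ 8 * n ∧ (∀ x, (Orb c A x).card ≤ 2 ^ (40 * j ^ 2)) ∧
      G ^ 2 ^ j ≤ 2 ^ (320 * n * E j) * H F ^ 2 ^ j := by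
    intro d
    induction d with
    | zero =>
      intro j hj _
      refine ⟨∅, ∅, Finset.Subset.refl _, by simp, fun x => ?_, ?_⟩
      · refine (Finset.card_le_univ _).trans ?_
        rw [← hn]
        have h1 : n < 2 ^ n := Nat.lt_two_pow_self
        have h2 : 2 ^ n ≤ 2 ^ (40 * j ^ 2) := by
          apply Nat.pow_le_pow_right (by norm_num)
          nlinarith
        omega
      · rw [hH0]
        exact Nat.le_mul_of_pos_left _ (by positivity)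
    | succ d ih =>
      intro j hj hj0
      obtain ⟨A', F', hAF, hA1, hA2, hA3⟩ := ih (j + 1) (by omega) (by omega)
      obtain ⟨n1, n2, n3, n4⟩ := hnum j hj0
      obtain ⟨A, hAA, hA4, hA5⟩ := hStep M Col c hf A' _ _ (2 ^ j) (8 ^ j) (4 ^ j)
        (a * 4 ^ j + b) Nat.one_le_two_pow hA2 n1 n2 n3 n4 (fun t ht1 ht2 hF => by
          apply hfam t ht1
          refine fam_fewer hF ?_
          have := Nat.mul_le_mul_left a ht2
          omega)
      refine ⟨A, F' ∪ A, Finset.subset_union_right, ?_, hA5, ?_⟩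
      · have h1 : 2 * (2 ^ j * A'.card) ≤ 8 * n := by
          calc 2 * (2 ^ j * A'.card) = 2 ^ (j + 1) * A'.card := by ring
            _ ≤ _ := hA1
        rw [← hn] at hA4
        omega
      · have h1 : G ^ 2 ^ (j + 1) ≤ 2 ^ (2 * (160 * n * E (j + 1))) * H F' ^ 2 ^ (j + 1) := by
          refine hA3.trans (le_of_eq ?_)
          congr 2
          ring
        have h2 := root j h1
        have h3 := hcard F' A (2 ^ (40 * (j + 1) ^ 2)) (fun x =>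
          (Finset.card_le_card (Orb_mono hAF x)).trans (hA2 x))
        have h4 : H F' ^ 2 ^ j ≤ 2 ^ (40 * (j + 1) ^ 2 * (8 * n)) * H (F' ∪ A) ^ 2 ^ j := by
          calc H F' ^ 2 ^ j ≤ ((2 ^ (40 * (j + 1) ^ 2)) ^ A.card * H (F' ∪ A)) ^ 2 ^ j :=
                Nat.pow_le_pow_left h3 _
            _ = 2 ^ (40 * (j + 1) ^ 2 * (2 ^ j * A.card)) * H (F' ∪ A) ^ 2 ^ j := by
                rw [mul_pow, ← pow_mul, ← pow_mul]
                congr 2
                ring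
            _ ≤ _ := by
                apply Nat.mul_le_mul_right
                apply Nat.pow_le_pow_right (by norm_num)
                apply Nat.mul_le_mul_left
                have h5 : 2 * (2 ^ j * A'.card) ≤ 8 * n := by
                  calc 2 * (2 ^ j * A'.card) = 2 ^ (j + 1) * A'.card := by ring
                    _ ≤ _ := hA1
                rw [← hn] at hA4
                omega
        calc G ^ 2 ^ j ≤ 2 ^ (160 * n * E (j + 1)) * H F' ^ 2 ^ j := h2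
          _ ≤ 2 ^ (160 * n * E (j + 1)) * (2 ^ (40 * (j + 1) ^ 2 * (8 * n)) * H (F' ∪ A) ^ 2 ^ j) :=
              Nat.mul_le_mul_left _ h4
          _ = 2 ^ (320 * n * E j) * H (F' ∪ A) ^ 2 ^ j := by
              rw [← mul_assoc, ← pow_add]
              congr 2
              have h6 := hErec j
              calc 160 * n * E (j + 1) + 40 * (j + 1) ^ 2 * (8 * n) =
                  160 * n * (E (j + 1) + 2 * (j + 1) ^ 2) := by ring
                _ = 320 * n * E j := by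
                  rw [← h6]
                  ring
  obtain ⟨A, F, hAF, hA1, hA2, hA3⟩ := hind (n + 1) j₀ (by omega) le_rfl
  have h1 := hcard F Finset.univ (2 ^ (40 * j₀ ^ 2)) (fun x =>
    (Finset.card_le_card (Orb_mono hAF x)).trans (hA2 x))
  have h2 : H (F ∪ Finset.univ) = 1 := by
    rw [hH]
    have : Unique {g : Equiv.Perm M // St c (F ∪ Finset.univ) g} :=
      { default := ⟨Equiv.refl M, St.one⟩
        uniq := fun g => Subtype.ext (Equiv.ext fun x => g.2.2 x (by simp)) }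
    exact Nat.card_unique
  rw [h2, mul_one, Finset.card_univ, ← hn] at h1
  calc G ≤ G ^ 2 ^ j₀ := Nat.le_self_pow (by positivity) G
    _ ≤ 2 ^ (320 * n * E j₀) * H F ^ 2 ^ j₀ := hA3
    _ ≤ 2 ^ (320 * n * E j₀) * ((2 ^ (40 * j₀ ^ 2)) ^ n) ^ 2 ^ j₀ :=
        Nat.mul_le_mul_left _ (Nat.pow_le_pow_left h1 _)
    _ = (2 ^ (320 * E j₀ + 40 * j₀ ^ 2 * 2 ^ j₀)) ^ n := by
        rw [← pow_mul, ← pow_mul, ← pow_mul, ← pow_add]
        congr 1
        ring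

end Pool.Agent.Helper40.EK
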